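import Pool.Agent.Lib.MP_ab8df0_nt.B.Auto2
import Pool.Agent.Lib.MP_ab8df0_nt.C.Red13

/-! Small lemmas shared by the statements over pure cubic fields. -/

namespace Pool.Agent.Lib.MP_ab8df0_nt.T

open Pool.Agent.Lib.MP_ab8df0_nt.B Pool.Agent.Lib.MP_ab8df0_nt.C

theorem odd_z {x y z : ℤ} (hyz : IsCoprime y z)
    (h : 1 ^ 2 * x ^ 4 + 2 * y ^ 3 + (1 * z) ^ 3 = 0) : Odd z := by
  rcases Int.even_or_odd z with ⟨m, rfl⟩ | hz
  · refine (R13.not_dvd_once (x := x) (a := 1) (b := 1) Int.prime_two (by norm_num) (by norm_num)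
      (by norm_num) hyz (by linear_combination h) ?_).elim
    exact Int.prime_two.dvd_of_dvd_pow (n := 4) ⟨-(y ^ 3 + 4 * m ^ 3), by linear_combination h⟩
  · exact hz

theorem odd_y {y z : ℤ} (hyz : IsCoprime y z) (hz : Even z) : Odd y := by
  rcases Int.even_or_odd y with hy | hy
  · exact (R13.not_both hyz (by norm_num) hy.two_dvd hz.two_dvd).elim
  · exact hy

section
variable {K : Type*} [Field K] [CharZero K]

theorem q2_unit {z : ℤ} (hz : Odd z) : Q2 1 ((z : K) - ((1 : ℤ) : K)) := by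
  obtain ⟨m, rfl⟩ := hz
  exact ⟨m, 1, odd_one, by push_cast; ring⟩

theorem ne_of_odd {z : ℤ} (hz : Odd z) : (z : K) ≠ 0 :=
  Int.cast_ne_zero.2 fun h0 => by simp [h0] at hz

theorem fourth {d y z : ℤ} {a ci : K} {c : Q3} (ht : a ^ 3 = (d : K)) (hc : e3 a c * ci = 1)
    (hf : Fac d 1 c y z) : ∃ al : K, (al ^ 2) ^ 2 = -((z : K) + y * a) * ci := by
  obtain ⟨u, hu⟩ := hf
  have hw : -((z : K) + y * a) = e3 a c * e3 a u ^ 4 := by
    rw [← R13.e3_p4 ht, ← R13.e3_m3 ht, hu]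
    simp only [e3]; push_cast; ring
  exact ⟨e3 a u, by rw [hw]; linear_combination (-e3 a u ^ 4) * hc⟩

/-- the chart where `z` is odd -/
theorem chart0 {d y z : ℤ} {a ci : K} {c : Q3} (ht : a ^ 3 = (d : K)) (hc : e3 a c * ci = 1)
    (hf : Fac d 1 c y z) (hz : Odd z)
    (H : ∀ t u B : K, Q2 0 (t - ((0 : ℤ) : K)) → Q2 1 (u - ((1 : ℤ) : K)) →
      B ^ 2 = -u * ((1 + t * a) * ci) → IsSquare (-u * ((1 + t * a) * ci)) → IsSquare B → False) :
    False := by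
  obtain ⟨al, h⟩ := fourth ht hc hf
  have h0 : (z : K) ≠ 0 := ne_of_odd hz
  have h1 : (al ^ 2) ^ 2 = -(z : K) * ((1 + (y : K) / z * a) * ci) := by
    rw [h]; field_simp
  exact H _ _ _ (Q2.of_div hz (by simp)) (q2_unit hz) h1 ⟨al ^ 2, by rw [← h1]; ring⟩
    ⟨al, sq al⟩

/-- the chart where `z` is even -/
theorem chart1 {d y z : ℤ} {a ci : K} {c : Q3} (ht : a ^ 3 = (d : K)) (hc : e3 a c * ci = 1)
    (hf : Fac d 1 c y z) (hy : Odd y) (hz : Even z)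
    (H : ∀ t u B : K, Q2 1 (t - ((0 : ℤ) : K)) → Q2 1 (u - ((1 : ℤ) : K)) →
      B ^ 2 = -u * ((t + a) * ci) → IsSquare (-u * ((t + a) * ci)) → IsSquare B → False) :
    False := by
  obtain ⟨al, h⟩ := fourth ht hc hf
  have h0 : (y : K) ≠ 0 := ne_of_odd hy
  have h1 : (al ^ 2) ^ 2 = -(y : K) * (((z : K) / y + a) * ci) := by
    rw [h]; field_simp
  exact H _ _ _ (Q2.of_div hy (by simpa using hz.two_dvd)) (q2_unit hy) h1
    ⟨al ^ 2, by rw [← h1]; ring⟩ ⟨al, sq al⟩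

end

/-- divided differences at a special point -/
theorem dqs {K : Type*} [Field K] {a t g X D G0 X0 x0 p q : K} (hu : 1 + t * a ≠ 0)
    (hg : g = 2 * (1 + t * a)⁻¹ - 1) (hX : X ^ 2 = 1 + 3 * g ^ 2)
    (hG0 : (q + p * a) * (G0 + 1) = 2 * q) (hX0 : X0 ^ 2 = 1 + 3 * G0 ^ 2) (hx0 : x0 = D * X0)
    (hd : q * t - p ≠ 0) :
    ∃ dG dX dx : K, ((1 + t * a) * (q + p * a)) * dG = (-2) * a ∧
      (X + X0) * dX = 3 * ((g + G0) * dG) ∧ dx = D * dX ∧ D * X - x0 = (q * t - p) * dx := by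
  have h1 : (1 + t * a) * (g + 1) = 2 := by rw [hg]; field_simp; ring
  refine ⟨(g - G0) / (q * t - p), (X - X0) / (q * t - p), _, ?_, dd_sq hd hX hX0 ?_, rfl, ?_⟩
  · rw [← mul_div_assoc, div_eq_iff hd]
    linear_combination (q + p * a) * h1 - (1 + t * a) * hG0
  · field_simp; ring
  · rw [hx0]; field_simp

end Pool.Agent.Lib.MP_ab8df0_nt.T
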