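import Pool.Agent.Lib.MP_ab8df0_nt.T.Xi

/-! Lemmas that are common to the fields of degree twelve. -/

namespace Pool.Agent.Lib.MP_ab8df0_nt.T.L12

open NumberField IsDedekindDomain WithZero
open Pool.Agent.Lib.MP_ab8df0_nt.B Pool.Agent.Lib.MP_ab8df0_nt.C

/-- `1 + xi` has even valuation outside 6; `c = c0 + c1 t + c2 t ^ 2` has norm `k ^ 2` -/
theorem X_even {F : Type} [Field F] [NumberField F] {t c al rho ka xi g E : F}
    {d k y z : ℤ} (c0 c1 c2 m : ℤ) (j : ℕ) (hm : d * k * m = 6 ^ j)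
    (hn : c0 ^ 3 + d * c1 ^ 3 + d ^ 2 * c2 ^ 3 - 3 * d * c0 * c1 * c2 = k ^ 2)
    (ht : t ^ 3 = (d : F)) (hc : c = c0 + c1 * t + c2 * t ^ 2) (hyz : IsCoprime y z)
    (hr : rho ^ 2 * c ^ 3 = (k : F) ^ 2) (hal : al ≠ 0) (hw : -((k : F) * z + y * t) = c * al ^ 4)
    (hg : g * ((k : F) * z + y * t) = k * z - y * t) (hka : ka ≠ 0)
    (hE : E = 2 * (rho * ka ^ 2)) (hE2 : E ^ 2 = 1 + 3 * g ^ 2) (hxi : xi ^ 2 = 1 + E)
    (v : HeightOneSpectrum (𝓞 F)) (hv : ((6 : ℕ) : 𝓞 F) ∉ v.asIdeal) :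
    ∃ j : ℤ, v.valuation F (1 + xi) = exp (2 * j) := by
  have h6 : v.valuation F (6 : F) = 1 := by
    have := (v.valuation_eq_one_iff_notMem (K := F)).2 hv
    rwa [map_natCast, Nat.cast_ofNat] at this
  generalize v.valuation F = w at h6 ⊢
  have un : ∀ (i : ℕ) (a b : F), P w 0 a → P w 0 b → a * b = 6 ^ i → w a = exp (-0) :=
    fun i a b ha hb q => by
      refine exact_of_not ha fun q2 => ?_
      have q3 := q2.mul0 hb
      rw [q] at q3
      exact not_P_of_exact (r := 0) (by simp [h6]) q3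
  have p2 : P w 0 (2 : F) := by simpa using P.int w 2
  have p3 : P w 0 (3 : F) := by simpa using P.int w 3
  have pt : P w 0 t := R13.root0 (n := 3) (by norm_num) (ht ▸ P.int w d)
  have pt2 : P w 0 (t ^ 2) := by simpa using pt.pow 2
  have hmF : (d : F) * k * m = 6 ^ j := by exact_mod_cast congrArg (Int.cast : ℤ → F) hm
  have hnF : (c0 : F) ^ 3 + d * c1 ^ 3 + d ^ 2 * c2 ^ 3 - 3 * d * c0 * c1 * c2 = k ^ 2 := by
    exact_mod_cast congrArg (Int.cast : ℤ → F) hn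
  have pe : ∀ a b e : ℤ, P w 0 ((a : F) + b * t + e * t ^ 2) := fun a b e =>
    ((P.int w a).add ((P.int w b).mul0 pt)).add ((P.int w e).mul0 pt2)
  have uk := un j k ((d * m : ℤ) : F) (P.int w k) (P.int w _) (by push_cast; linear_combination hmF)
  suffices uc : w c = exp (-0) by
    refine xi_even (un 1 2 3 p2 p3 (by norm_num)) (un 1 3 2 p3 p2 (by norm_num)) uk
      (un j t (t ^ 2 * ((k * m : ℤ) : F)) pt (pt2.mul0 (P.int w _))
        (by push_cast; linear_combination hmF + (k : F) * m * ht)) uc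
      (unit_pow two_ne_zero ?_) hyz hal hka hw hg hE hE2 hxi
    have b := congrArg w hr
    rw [map_mul, exact_pow uc 3, exact_pow uk 2] at b
    simpa using b
  refine un (2 * j) c ((((c0 ^ 2 - d * c1 * c2 : ℤ) : F) + ((d * c2 ^ 2 - c0 * c1 : ℤ) : F) * t +
      ((c1 ^ 2 - c0 * c2 : ℤ) : F) * t ^ 2) * (((d * m) ^ 2 : ℤ) : F)) (hc ▸ pe _ _ _)
      ((pe _ _ _).mul0 (P.int w _)) ?_
  rw [pow_mul', ← hmF, hc]
  push_cast
  linear_combination ((d : F) * m) ^ 2 * hnF +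
    ((d : F) * m) ^ 2 * ((c1 : F) ^ 3 - 2 * c0 * c1 * c2 + d * c2 ^ 3 +
      (c2 * (c1 ^ 2 - c0 * c2)) * t) * ht

/-- the sign of the square root can be chosen at one real place -/
theorem sign_choice {K : Type*} [Field K] (ph : List (K →+* ℝ)) (i : ℕ) {xi e : K}
    (h : xi ^ 2 = e) :
    ∃ xi' : K, xi' ^ 2 = e ∧ ∀ j ∈ [i], ∀ φ, ph[j]? = some φ → 0 < φ (1 + xi') := by
  cases hp : ph[i]? with
  | none => exact ⟨xi, h, fun j hj φ h1 => by simp [List.mem_singleton.1 hj, hp] at h1⟩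
  | some ψ =>
    have key : ∀ u : K, 0 ≤ ψ u → ∀ j ∈ [i], ∀ φ, ph[j]? = some φ → 0 < φ (1 + u) := by
      intro u hu j hj φ h1
      rw [List.mem_singleton.1 hj, hp] at h1
      obtain rfl := Option.some.inj h1
      rw [map_add, map_one]
      linarith
    rcases le_total 0 (ψ xi) with q | q
    · exact ⟨xi, h, key xi q⟩
    · exact ⟨-xi, by rw [neg_sq, h], key _ (by rw [map_neg]; linarith)⟩

variable {K : Type} [Field K] [CharZero K]

/-- the point on the curve -/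
theorem onD {g E xi dl r D a b : K} (hg : g ≠ 0) (hE : E ^ 2 = 1 + 3 * g ^ 2)
    (hxi : xi ^ 2 = 1 + E) (hs : IsSquare ((1 + xi) * dl)) (hD : D = 3 * (dl * r ^ 2))
    (ha : a = -2 * D) (hb : b = -D ^ 2) : ∃ Y, On a b (D * (1 + xi)) Y := by
  have h0 : xi ≠ 0 := by
    rintro rfl
    have : E = -1 := by linear_combination -hxi
    rw [this] at hE
    exact mul_ne_zero (three_ne_zero' K) (pow_ne_zero 2 hg) (by linear_combination -hE)
  rw [ha, hb]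
  exact on_xi (r := r) hE hxi h0 (by rw [hD]; ring) hs

/-- the divided differences at the special value `p / q` in the chart `t = y / z`, `k = 1` -/
theorem chain {t th g E xi D G0 E0 xi0 x0 p q : K} (h1 : 1 + t * th ≠ 0)
    (hG : g = 2 * (1 + t * th)⁻¹ - 1) (hE : E ^ 2 = 1 + 3 * g ^ 2)
    (hxi : xi ^ 2 = 1 + E) (rG : G0 * (q + p * th) = q - p * th) (rE : E0 ^ 2 = 1 + 3 * G0 ^ 2)
    (rxi : xi0 ^ 2 = 1 + E0) (rx : x0 = D * (1 + xi0)) (hd : q * t - p ≠ 0) :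
    ∃ dG dE dxi dx : K, (1 + t * th) * (q + p * th) * dG = -2 * th ∧
      (E + E0) * dE = 3 * ((g + G0) * dG) ∧ (xi + xi0) * dxi = dE ∧
      dx = D * dxi ∧ D * (1 + xi) - x0 = (q * t - p) * dx := by
  have e1 : g * (1 + t * th) = 1 - t * th := by rw [hG]; field_simp; ring
  obtain ⟨a1, a2, a3⟩ := dqx (D := D) hE rE hxi rxi hd
  refine ⟨_, _, _, _, ?_, a1, a2, rfl, rx ▸ a3⟩
  rw [← mul_div_assoc, div_eq_iff hd]
  linear_combination (q + p * th) * e1 - (1 + t * th) * rG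

/-- if `q t - p` vanishes then so does `q y - p z` -/
theorem ne_of {t : K} {y z : ℤ} (ht : t * z = y) (p q : ℤ) (h : q * y - p * z ≠ 0) :
    (q : K) * t - p ≠ 0 := fun h0 => h (by
  have : ((q * y - p * z : ℤ) : K) = 0 := by
    push_cast
    linear_combination (z : K) * h0 - (q : K) * ht
  exact_mod_cast this)

/-- the quantities attached to a solution in the chart `t = y / z` with `k = 1` -/
theorem lev1 {F : Type} [Field F] [NumberField F] (ph : List (F →+* ℝ)) (i : ℕ) {th rho sig : F}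
    {d x y z : ℤ} (c0 c1 c2 m : ℤ) (j : ℕ) (hm : d * 1 * m = 6 ^ j)
    (hn : c0 ^ 3 + d * c1 ^ 3 + d ^ 2 * c2 ^ 3 - 3 * d * c0 * c1 * c2 = 1 ^ 2)
    (ht : th ^ 3 = (d : F)) (hr : rho ^ 2 * (c0 + c1 * th + c2 * th ^ 2) ^ 3 = 1)
    (hs0 : sig ≠ 0)
    (hs : (th * (c0 + c1 * th + c2 * th ^ 2)) * (sig ^ 2 - 1 - 2 * rho) = -(3 * d * c2))
    (hx : x ≠ 0) (hyz : IsCoprime y z) (hz : Odd z) (hne : z ^ 3 ≠ d * y ^ 3)
    (h : 1 ^ 2 * x ^ 4 + d * y ^ 3 + (1 * z) ^ 3 = 0) (hf : Fac d 1 (c0, c1, c2) y z) :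
    ∃ t g E xi : F, t * z = y ∧ 1 + t * th ≠ 0 ∧ g ≠ 0 ∧ Q2 0 (t - ((0 : ℤ) : F)) ∧
      g = 2 * (1 + t * th)⁻¹ - 1 ∧ E ^ 2 = 1 + 3 * g ^ 2 ∧ IsSquare (2 * rho * E) ∧
      xi ^ 2 = 1 + E ∧
      (∀ v : HeightOneSpectrum (𝓞 F), ((6 : ℕ) : 𝓞 F) ∉ v.asIdeal →
        ∃ j : ℤ, v.valuation F (1 + xi) = exp (2 * j)) ∧
      ∀ j ∈ [i], ∀ φ, ph[j]? = some φ → 0 < φ (1 + xi) := by
  have hc : e3 th ((c0 : ℚ), (c1 : ℚ), (c2 : ℚ)) = c0 + c1 * th + c2 * th ^ 2 := by simp [e3]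
  have hc0 : (c0 : F) + c1 * th + c2 * th ^ 2 ≠ 0 := fun q => by simp [q] at hr
  have hd0 : d ≠ 0 := by
    rintro rfl
    exact pow_ne_zero j (by norm_num : (6 : ℤ) ≠ 0) (by rw [← hm]; ring)
  have ht0 : th ≠ 0 := by
    rintro rfl
    exact hd0 (by exact_mod_cast (by simpa using ht.symm : (d : F) = 0))
  obtain ⟨al, ha0, hw, he, hxi⟩ := eta_exists (F := F) (t := th) (rho := rho) ht
    (by simp only [n3]; exact_mod_cast hn) one_ne_zero (by rw [hc, hr]; simp) hx h hf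
  obtain ⟨xi1, hxi1⟩ := hxi sig ht0 hs0 (by
    rw [hc]
    have := div_mul_cancel₀ (((3 * d * c2 : ℚ) : F)) (mul_ne_zero ht0 hc0)
    refine mul_right_cancel₀ (mul_ne_zero ht0 hc0) ?_
    push_cast at this ⊢
    linear_combination hs + this)
  obtain ⟨xi, hxi2, hsg⟩ := sign_choice ph i hxi1
  rw [hc] at hw
  have hz0 : (z : F) ≠ 0 := ne_of_odd hz
  have hw0 : ((1 : ℤ) : F) * z + y * th ≠ 0 := fun q =>
    mul_ne_zero hc0 (pow_ne_zero 4 ha0) (by rw [← hw, q, neg_zero])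
  have hw1 : (z : F) + y * th ≠ 0 := by simpa using hw0
  have hw2 : (z : F) - y * th ≠ 0 := fun q => hne (by
    have : ((z ^ 3 : ℤ) : F) = ((d * y ^ 3 : ℤ) : F) := by
      push_cast
      rw [sub_eq_zero.1 q, mul_pow, ht, mul_comm]
    exact_mod_cast this)
  have hu1 : 1 + (y : F) / z * th = (z + y * th) / z := by field_simp
  have hE2 : (2 * (rho * (x / al ^ 3) ^ 2)) ^ 2 = 1 + 3 * (((z : F) - y * th) / (z + y * th)) ^ 2 := by
    simp only [Int.cast_one, one_mul] at he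
    linear_combination he
  refine ⟨y / z, (z - y * th) / (z + y * th), 2 * (rho * (x / al ^ 3) ^ 2), xi,
    div_mul_cancel₀ _ hz0, hu1 ▸ div_ne_zero hw1 hz0, div_ne_zero hw2 hw1,
    Q2.of_div hz (by simp), ?_, hE2, ⟨2 * rho * (x / al ^ 3), by ring⟩, hxi2, ?_, hsg⟩
  · rw [hu1]; field_simp; ring
  · refine X_even c0 c1 c2 m j hm hn ht rfl hyz (by simpa using hr) ha0 hw ?_
      (div_ne_zero (Int.cast_ne_zero.2 hx) (pow_ne_zero 3 ha0)) rfl hE2 hxi2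
    simp only [Int.cast_one, one_mul]
    field_simp

end Pool.Agent.Lib.MP_ab8df0_nt.T.L12
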