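import Pool.Agent.Lib.MP_ab8df0_nt.C.Red6
import Pool.Agent.Lib.MP_ab8df0_nt.B.Auto2

/-! Lemmas that are common to the five fields of degree fifteen. -/

namespace Pool.Agent.Lib.MP_ab8df0_nt.T.N15

open Pool.Agent.Lib.MP_ab8df0_nt.B Pool.Agent.Lib.MP_ab8df0_nt.C

variable {K : Type} [Field K] [CharZero K]

/-- the quantities attached to a solution; `t = y / z` -/
theorem lev1 {c : Q3} {th be : K} (ht : th * th ^ 2 = 2) (hb : 4 * be ^ 5 = e3 th c ^ 3)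
    {x y z : ℤ} (hz : Odd z) (h : x ^ 5 + 2 * y ^ 3 + z ^ 3 = 0)
    (hf : ∃ a : Q3, m3 2 c (p5 a) = (-(z : ℚ), -(y : ℚ), 0)) :
    ∃ t g X : K, t * z = y ∧ 1 + t * th ≠ 0 ∧ g ≠ 0 ∧ Q2 0 (t - ((0 : ℤ) : K)) ∧
      g = 2 * (1 + t * th)⁻¹ - 1 ∧ X ^ 5 = 1 + 3 * g ^ 2 := by
  obtain ⟨h1, h2, X, hX⟩ := X_exists (F := K) (t := th) (by linear_combination ht) hb hz h hf
  have z0 : (z : K) ≠ 0 := Int.cast_ne_zero.2 fun h0 => by simp [h0] at hz
  refine ⟨y / z, _, X, div_mul_cancel₀ _ z0, h1, div_ne_zero h2 h1,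
    Q2.of_div hz (by simp), ?_, hX⟩
  generalize (y : K) / z = t at h1
  field_simp
  ring

/-- if `q t - p` vanishes then so does `q y - p z` -/
theorem ne_of {t : K} {y z : ℤ} (ht : t * z = y) (p q : ℤ) (h : q * y - p * z ≠ 0) :
    (q : K) * t - p ≠ 0 := fun h0 => h (by
  have : ((q * y - p * z : ℤ) : K) = 0 := by
    push_cast
    linear_combination (z : K) * h0 - (q : K) * ht
  exact_mod_cast this)

theorem X_ne {X g : K} (hg : g ≠ 0) (hX : X ^ 5 = 1 + 3 * g ^ 2) : X - 1 ≠ 0 := fun q =>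
  mul_ne_zero (three_ne_zero' K) (pow_ne_zero 2 hg) (by
    rw [sub_eq_zero.1 q] at hX; linear_combination -hX)

/-- the point on the curve -/
theorem on15 {X g dl r D a b D5 : K} (hg : g ≠ 0) (hX : X ^ 5 = 1 + 3 * g ^ 2)
    (hs : IsSquare ((X - 1) * dl)) (hD : D = 3 * (dl * r ^ 2)) (ha : a = 10 * D)
    (hb : b = 5 * D ^ 2) (h5 : D5 = 5 * D) : ∃ Y, On a b (D5 * (1 + 2 * (X - 1)⁻¹) ^ 2) Y := by
  have h1 := X_ne hg hX
  have e : 1 + 2 * (X - 1)⁻¹ = (X + 1) / (X - 1) := by field_simp; ring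
  rw [e, h5]
  exact on6 (r := r) hg hX hs (by rw [hD]; ring) ha hb

/-- the divided differences at the special value `p / q` -/
theorem chain {t th g X u x D5 p q G0 X0 u0 x0 : K} (h1 : 1 + t * th ≠ 0)
    (hg : g ≠ 0) (hG : g = 2 * (1 + t * th)⁻¹ - 1) (hX : X ^ 5 = 1 + 3 * g ^ 2)
    (hu : u = 1 + 2 * (X - 1)⁻¹) (hx : x = D5 * u ^ 2)
    (rG : G0 * (q + p * th) = q - p * th) (rX : X0 * (X0 ^ 2) ^ 2 = 1 + 3 * G0 ^ 2)
    (ru : u0 * (X0 - 1) = X0 + 1) (rx : x0 = D5 * u0 ^ 2) (hd : q * t - p ≠ 0) :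
    ∃ dG dX du dx : K, (1 + t * th) * (q + p * th) * dG = -2 * th ∧
      ((X ^ 2) ^ 2 + X0 * (X * X ^ 2 + X0 * (X ^ 2 + X0 * (X + X0)))) * dX = 3 * ((g + G0) * dG) ∧
      (X - 1) * (X0 - 1) * du = -2 * dX ∧ dx = D5 * ((u + u0) * du) ∧
      x - x0 = (q * t - p) * dx := by
  have h2 := X_ne hg hX
  have e1 : g * (1 + t * th) = 1 - t * th := by rw [hG]; field_simp; ring
  have e2 : u * (X - 1) = X + 1 := by rw [hu]; field_simp; ring
  refine ⟨(g - G0) / (q * t - p), (X - X0) / (q * t - p), (u - u0) / (q * t - p),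
    (x - x0) / (q * t - p), ?_, ?_, ?_, ?_, ?_⟩
  · rw [← mul_div_assoc, div_eq_iff hd]
    linear_combination (q + p * th) * e1 - (1 + t * th) * rG
  · field_simp
    linear_combination hX - rX
  · field_simp
    linear_combination (X0 - 1) * e2 - (X - 1) * ru
  · field_simp
    linear_combination hx - rx
  · field_simp

end Pool.Agent.Lib.MP_ab8df0_nt.T.N15
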