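import Pool.Agent.Lib.MP_ab8df0_nt.B.Auto2
import Pool.Agent.Lib.MP_ab8df0_nt.C.Red6

/-! The algebra shared by the five cases over fields of degree fifteen. -/

namespace Pool.Agent.Lib.MP_ab8df0_nt.T.N15b

open B C

theorem setup {F : Type} [Field F] [CharZero F] {c : Q3} {T be : F} (ht : T ^ 3 = 2)
    (hb : 4 * be ^ 5 = e3 T c ^ 3) {x y z : ℤ} (hz : Odd z) (h : x ^ 5 + 2 * y ^ 3 + z ^ 3 = 0)
    (hf : ∃ a : Q3, m3 2 c (p5 a) = (-(z : ℚ), -(y : ℚ), 0)) :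
    ∃ t g X : F, t * z = y ∧ Q2 0 (t - ((0 : ℤ) : F)) ∧ 1 + t * T ≠ 0 ∧ g ≠ 0 ∧
      g = 2 * (1 + t * T)⁻¹ - 1 ∧ X ^ 5 = 1 + 3 * g ^ 2 := by
  obtain ⟨h1, h2, X, hX⟩ := X_exists ht hb hz h hf
  have z0 : (z : F) ≠ 0 := Int.cast_ne_zero.2 fun h0 => by simp [h0] at hz
  refine ⟨y / z, _, X, div_mul_cancel₀ _ z0, Q2.of_div hz (by simp), h1, div_ne_zero h2 h1, ?_, hX⟩
  generalize (y : F) / z = t at h1
  field_simp
  ring

theorem ne_of {F : Type} [Field F] [CharZero F] {t : F} {y z p q : ℤ} (h : t * z = y)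
    (hn : q * y - p * z ≠ 0) : (q : F) * t - p ≠ 0 := fun h0 => hn (by
  have h1 : (q : F) * y - p * z = 0 := by linear_combination (z : F) * h0 - q * h
  exact_mod_cast h1)

theorem lev2 {F : Type} [Field F] [CharZero F] {T t g X dl D5 a b G0 X0 u0 x0 p q : F} {G : Prop}
    (h1 : 1 + t * T ≠ 0) (hg0 : g ≠ 0) (hg : g = 2 * (1 + t * T)⁻¹ - 1)
    (hX : X ^ 5 = 1 + 3 * g ^ 2) (hs : IsSquare ((X - 1) * dl))
    (rA : a = 2 * D5) (rB : 5 * b = D5 ^ 2) (rL : 5 * dl = 3 * D5)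
    (rG : G0 * (q + p * T) = q - p * T) (rX : X0 * (X0 ^ 2) ^ 2 = 1 + 3 * G0 ^ 2)
    (rU : u0 * (X0 - 1) = X0 + 1) (rx : x0 = D5 * u0 ^ 2) (hn : q * t - p ≠ 0)
    (core : ∀ u x y dG dX du dx : F, u = 1 + 2 * (X - 1)⁻¹ → x = D5 * u ^ 2 → On a b x y →
      (1 + t * T) * (q + p * T) * dG = -2 * T →
      ((X ^ 2) ^ 2 + X0 * (X * X ^ 2 + X0 * (X ^ 2 + X0 * (X + X0)))) * dX = 3 * ((g + G0) * dG) →
      (X - 1) * (X0 - 1) * du = -2 * dX → dx = D5 * ((u + u0) * du) → q * t - p ≠ 0 →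
      x - x0 = (q * t - p) * dx → G) : G := by
  have hX1 : X - 1 ≠ 0 := fun e => mul_ne_zero (three_ne_zero' F) (pow_ne_zero 2 hg0) (by
    rw [sub_eq_zero.1 e] at hX; linear_combination -hX)
  obtain ⟨Y, hY⟩ := on6 (r := 1 / 3) (D := D5 / 5) (a := a) (b := b) hg0 hX hs
    (by linear_combination (-1 / 15) * rL) (by linear_combination rA)
    (by linear_combination (1 / 5) * rB)
  have hu : (X + 1) / (X - 1) = 1 + 2 * (X - 1)⁻¹ := by field_simp; ring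
  have hu' : (1 + 2 * (X - 1)⁻¹) * (X - 1) = X + 1 := by rw [← hu, div_mul_cancel₀ _ hX1]
  have hg' : g * (1 + t * T) = 1 - t * T := by rw [hg]; field_simp; ring
  rw [hu, show 5 * (D5 / 5) = D5 by ring] at hY
  generalize hU : 1 + 2 * (X - 1)⁻¹ = u at hY hu'
  refine core u _ Y ((g - G0) / (q * t - p)) ((X - X0) / (q * t - p)) ((u - u0) / (q * t - p)) _
    hU.symm rfl hY ?_ ?_ ?_ rfl hn ?_
  · rw [← mul_div_assoc, div_eq_iff hn]
    linear_combination (q + p * T) * hg' - (1 + t * T) * rG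
  · rw [← mul_div_assoc, ← mul_div_assoc, ← mul_div_assoc]
    congr 1
    linear_combination hX - rX
  · rw [← mul_div_assoc, ← mul_div_assoc]
    congr 1
    linear_combination (X0 - 1) * hu' - (X - 1) * rU
  · rw [rx]
    field_simp
    ring

end Pool.Agent.Lib.MP_ab8df0_nt.T.N15b
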