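import Pool.Agent.Lib.MP_ab8df0_nt.T.Cubic

/-! Lemmas for the statements that are treated over quintic fields. -/

namespace Pool.Agent.Lib.MP_ab8df0_nt.T.Q5

open WithZero Pool.Agent.Lib.MP_ab8df0_nt.B Pool.Agent.Lib.MP_ab8df0_nt.C

/-- the quartic cofactor of `a` in the rational part of `(a + b * sqrt d) ^ 5` -/
def G4 {L : Type*} [Field L] (d a b : L) : L := a ^ 4 + 10 * d * a ^ 2 * b ^ 2 + 5 * d ^ 2 * b ^ 4

/-- if `(A + B * sqrt d) ^ 5 = e0 + e1 * sqrt d` then the quintic form has a linear factor -/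
theorem fac {L : Type*} [Field L] {A B : L} {d e0 e1 : ℤ} (u v : ℤ)
    (h0 : A ^ 5 + 10 * d * A ^ 3 * B ^ 2 + 5 * d ^ 2 * A * B ^ 4 = e0)
    (h1 : 5 * A ^ 4 * B + 10 * d * A ^ 2 * B ^ 3 + d ^ 2 * B ^ 5 = e1) :
    ((e0 * re5 d u v + d * e1 * im5 d u v : ℤ) : L) =
      (u * A + d * v * B) * G4 (d : L) (u * A + d * v * B) (u * B + v * A) := by
  unfold G4 re5 im5
  push_cast
  rw [← h0, ← h1]
  ring

section
variable {L : Type*} [Field L] {w : Valuation L Gam}

/-- the quartic factor has even valuation -/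
theorem G4_even {A B n : L} {d u v y : ℤ} (hA : P w 0 A) (hn : A ^ 2 - d * B ^ 2 = n)
    (hn1 : n ^ 2 = 1) (h5 : w 5 = exp (-0))
    (hd : w (d : L) = exp (-0) ∨ w (y : L) = exp (-0)) (huv : IsCoprime u v) (hy0 : (y : L) ≠ 0)
    (hy : (y : L) ^ 2 = (u * A + d * v * B) * G4 (d : L) (u * A + d * v * B) (u * B + v * A)) :
    ∃ k : ℤ, w (G4 (d : L) (u * A + d * v * B) (u * B + v * A)) = exp (2 * k) := by
  have pn : P w 0 n := R13.root0 (n := 2) two_ne_zero (hn1 ▸ P.one w)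
  have pA2 : P w 0 (A ^ 2) := (hA.mul0 hA).congr (by ring)
  have pB2 : P w 0 (d * B ^ 2) := (pA2.sub pn).congr (by linear_combination -hn)
  have pdB : P w 0 (d * B) :=
    R13.root0 (n := 2) two_ne_zero (((P.int w d).mul0 pB2).congr (by ring))
  have pu := P.int w u
  have pv := P.int w v
  obtain ⟨a, ha⟩ : ∃ a : L, a = u * A + d * v * B := ⟨_, rfl⟩
  obtain ⟨b, hb⟩ : ∃ b : L, b = u * B + v * A := ⟨_, rfl⟩
  rw [← ha, ← hb] at hy ⊢
  have pa : P w 0 a := ((pu.mul0 hA).add (pv.mul0 pdB)).congr (by rw [ha]; ring)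
  have pc : P w 0 (d * b ^ 2) :=
    ((((pu.mul0 pu).mul0 pB2).add ((((P.int w 2).mul0 pu).mul0 pv).mul0 (hA.mul0 pdB))).add
      (((P.int w d).mul0 (pv.mul0 pv)).mul0 pA2)).congr (by rw [hb]; push_cast; ring)
  have pq : P w 0 (a ^ 2 + (10 : ℤ) * (d * b ^ 2)) :=
    ((pa.mul0 pa).add ((P.int w 10).mul0 pc)).congr (by ring)
  have eG : G4 (d : L) a b =
      a * (a * (a ^ 2 + (10 : ℤ) * (d * b ^ 2))) + (d * b ^ 2) ^ 2 * 5 := by
    unfold G4; push_cast; ring
  have pG : P w 0 (G4 (d : L) a b) :=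
    ((pa.mul0 (pa.mul0 pq)).add ((pc.mul0 pc).mul0 (P.of_eq h5))).congr (by rw [eG]; ring)
  by_cases hG : P w 1 (G4 (d : L) a b)
  swap
  · exact ⟨0, by simpa using exact_of_not pG (by simpa using hG)⟩
  obtain ⟨s, hs⟩ := exists_exact w hy0
  have y2 := exact_pow hs 2
  rw [hy] at y2
  rcases hd with hd | hd
  · have na : ¬ P w 1 a := fun qa => by
      have pB : P w 0 B := by simpa using (pdB.congr (mul_comm B d)).of_mul_exact hd
      have c1 : P w 1 ((d * b ^ 2) ^ 2 * 5) :=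
        (hG.sub (qa.mul0 (pa.mul0 pq))).congr (by rw [eG]; ring)
      have c2 : P w 1 (d * b ^ 2) :=
        R13.root1 (n := 2) two_ne_zero (by simpa using c1.of_mul_exact h5)
      have c3 : P w 1 b := R13.root1 (n := 2) two_ne_zero
        (by simpa using (c2.congr (mul_comm (b ^ 2) d)).of_mul_exact hd)
      refine R13.cop (v := w) huv ?_ ?_
      · exact (((qa.mul0 hA).sub (c3.mul0 pdB)).mul0 pn).congr (by
          rw [ha, hb]; linear_combination (-(u : L) * n) * hn - (u : L) * hn1)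
      · exact (((c3.mul0 hA).sub (qa.mul0 pB)).mul0 pn).congr (by
          rw [ha, hb]; linear_combination (-(v : L) * n) * hn - (v : L) * hn1)
    have ea := exact_of_not pa (by simpa using na)
    rw [map_mul, ea] at y2
    exact ⟨-s, by rw [← one_mul (w _)]; simpa [mul_comm] using y2⟩
  · have y3 := exact_pow hd 2
    rw [hy] at y3
    exact absurd (by simpa using pa.mul0' hG) (not_P_of_exact y3)

end

/-- the quartic factor is positive at real places -/
theorem G4_pos {K : Type*} [Field K] {d : ℤ} (hd : 0 < d) {a b : K} (h : G4 (d : K) a b ≠ 0)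
    (φ : K →+* ℝ) : 0 < φ (G4 (d : K) a b) := by
  refine lt_of_le_of_ne ?_ ((map_ne_zero φ).2 h).symm
  have : (0 : ℝ) < d := by exact_mod_cast hd
  simp only [G4, map_add, map_mul, map_pow, map_intCast, map_ofNat]
  positivity

open IsDedekindDomain NumberField in
/-- even valuation outside ten; either `d` divides ten or `d` is prime to `y` -/
theorem G4_cls {K : Type} [Field K] [NumberField K] {A B n : K} {d u v y : ℤ}
    (hA : ∀ v : HeightOneSpectrum (𝓞 K), ((10 : ℕ) : 𝓞 K) ∉ v.asIdeal → v.valuation K A ≤ 1)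
    (hn : A ^ 2 - d * B ^ 2 = n) (hn1 : n ^ 2 = 1) (hd : d ∣ 10 ∨ IsCoprime d y)
    (huv : IsCoprime u v) (hy0 : y ≠ 0)
    (hy : (y : K) ^ 2 = (u * A + d * v * B) * G4 (d : K) (u * A + d * v * B) (u * B + v * A))
    (p : HeightOneSpectrum (𝓞 K)) (hp : ((10 : ℕ) : 𝓞 K) ∉ p.asIdeal) :
    ∃ k : ℤ, p.valuation K (G4 (d : K) (u * A + d * v * B) (u * B + v * A)) = exp (2 * k) := by
  have h10 : p.valuation K (10 : K) = 1 := by
    have := (p.valuation_eq_one_iff_notMem (K := K)).2 hp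
    rwa [map_natCast, Nat.cast_ofNat] at this
  have hA' : P (p.valuation K) 0 A := by simpa [P] using hA p hp
  generalize p.valuation K = w at h10 hA' ⊢
  have un : ∀ a b : ℤ, 10 = a * b → w (a : K) = exp (-0) := fun a b q => by
    refine exact_of_not (P.int w a) fun q2 => ?_
    have q3 := q2.mul0 (P.int w b)
    rw [← Int.cast_mul, ← q] at q3
    exact not_P_of_exact (r := 0) (by simpa using h10) q3
  refine G4_even hA' hn hn1 (by exact_mod_cast un 5 2 rfl) ?_ huv (Int.cast_ne_zero.2 hy0) hy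
  rcases hd with ⟨c, hc⟩ | hd
  · exact Or.inl (un d c hc)
  · by_cases q : P w 1 (d : K)
    · exact Or.inr (exact_of_not (P.int w y) fun q2 => R13.cop hd q (by simpa using q2))
    · exact Or.inl (exact_of_not (P.int w d) (by simpa using q))

/-- `X = c ^ 2 m + 2 c y + G` is in the square class of `G` when `y ^ 2 = m G` -/
theorem X_mul {K : Type*} [Field K] {m G y : K} (c : K) (h : y ^ 2 = m * G) :
    (c ^ 2 * m + 2 * c * y + G) * G = (c * y + G) ^ 2 := by
  linear_combination (-c ^ 2) * h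

theorem X_even {L : Type*} [Field L] {w : Valuation L Gam} {X G r : L} (h : X * G = r ^ 2)
    (hr : r ≠ 0) (hG : ∃ k : ℤ, w G = exp (2 * k)) : ∃ k : ℤ, w X = exp (2 * k) := by
  obtain ⟨k, hk⟩ := hG
  obtain ⟨s, hs⟩ := exists_exact w hr
  have h2 := exact_pow hs 2
  rw [← h, map_mul, hk] at h2
  refine ⟨-s - k, ?_⟩
  rw [eq_div_of_mul_eq exp_ne_zero h2, ← exp_sub]
  congr 1
  push_cast
  ring

theorem X_pos {K : Type*} [Field K] {X G r : K} (h : X * G = r ^ 2) (hr : r ≠ 0) (φ : K →+* ℝ)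
    (hG : 0 < φ G) : 0 < φ X := by
  have h1 := congrArg φ h
  rw [map_mul, map_pow] at h1
  exact (pos_iff_pos_of_mul_pos (h1 ▸ pow_pos' ((map_ne_zero φ).2 hr))).2 hG
where pow_pos' {x : ℝ} (h : x ≠ 0) : 0 < x ^ 2 := by positivity

end Pool.Agent.Lib.MP_ab8df0_nt.T.Q5
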