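import Pool.Agent.Lib.MP_ab8df0_nt.T.Cubic

/-! Lemmas for the statements that are treated over fields of degree twelve. -/

namespace Pool.Agent.Lib.MP_ab8df0_nt.T

open WithZero Pool.Agent.Lib.MP_ab8df0_nt.B Pool.Agent.Lib.MP_ab8df0_nt.C

section
variable {L : Type*} [Field L] {w : Valuation L Gam}

theorem unit_dvd {n : ℕ} (hn : w (n : L) = 1) {a : ℤ} (j : ℕ) (h : a ∣ (n : ℤ) ^ j) :
    w (a : L) = exp (-0) := by
  obtain ⟨b, hb⟩ := h
  refine exact_of_not (P.int w a) fun q => ?_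
  have q3 := q.mul0 (P.int w b)
  rw [← Int.cast_mul, ← hb] at q3
  refine not_P_of_exact (r := 0) ?_ q3
  push_cast
  rw [map_pow, hn]; simp

theorem unit_pow {a : L} {n : ℕ} (hn : n ≠ 0) (h : w (a ^ n) = exp (-0)) : w a = exp (-0) :=
  exact_of_not (R13.root0 hn (P.of_eq h)) fun q => by
    obtain ⟨m, rfl⟩ := Nat.exists_eq_succ_of_ne_zero hn
    have q0 : P w 0 a := q.mono (by norm_num)
    have q1 : P w 0 (a ^ m) := by simpa using q0.pow m
    exact not_P_of_exact h ((q1.mul0' q).congr (pow_succ a m))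

/-- `1 + xi` has even valuation -/
theorem xi_even {th c rho al ka G E xi : L} {k y z : ℤ} (h2 : w 2 = exp (-0)) (h3 : w 3 = exp (-0))
    (hk : w (k : L) = exp (-0)) (ht : w th = exp (-0)) (hc : w c = exp (-0))
    (hr : w rho = exp (-0)) (hyz : IsCoprime y z) (ha : al ≠ 0) (hka : ka ≠ 0)
    (hw : -((k : L) * z + y * th) = c * al ^ 4) (hG : G * (k * z + y * th) = k * z - y * th)
    (hE : E = 2 * (rho * ka ^ 2)) (hE2 : E ^ 2 = 1 + 3 * G ^ 2) (hxi : xi ^ 2 = 1 + E) :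
    ∃ m : ℤ, w (1 + xi) = exp (2 * m) := by
  obtain ⟨s, hs⟩ := exists_exact w hka
  have vE : w E = exp (-(0 + (0 + s * (2 : ℕ)))) :=
    hE ▸ exact_mul h2 (exact_mul hr (exact_pow hs 2))
  have hEe : E = (1 + xi) * (1 + xi + -2) := by linear_combination -hxi
  have hX : 1 + xi ≠ 0 := fun q => ne_of_exact vE (by rw [hEe, q, zero_mul])
  obtain ⟨a, hv⟩ := exists_exact w hX
  rcases lt_trichotomy a 0 with q | rfl | q
  · have b1 := exact_mul hv (exact_add hv ((P.of_eq h2).neg.mono (by omega)))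
    rw [← hEe] at b1
    have b2 := exact_add (exact_pow b1 2) ((P.one w).neg.mono (by push_cast; omega))
    rw [show E ^ 2 + -1 = 3 * G ^ 2 by linear_combination hE2] at b2
    have hG0 : G ≠ 0 := fun q0 => ne_of_exact b2 (by rw [q0]; ring)
    obtain ⟨g, hg⟩ := exists_exact w hG0
    rw [exact_mul h3 (exact_pow hg 2), exp_inj] at b2
    obtain ⟨b, hb⟩ := exists_exact w ha
    have b3 : w (k * z + y * th) = exp (-(0 + b * (4 : ℕ))) := by
      rw [← Valuation.map_neg, hw]; exact exact_mul hc (exact_pow hb 4)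
    have b4 := exact_mul hg b3
    rw [hG] at b4
    have hZ : P w 0 ((k : L) * z) := (P.int w k).mul0 (P.int w z)
    have hY : P w 0 ((y : L) * th) := (P.int w y).mul0 (P.of_eq ht)
    have b5 := (P_iff_of_exact b4).1 (hZ.sub hY)
    push_cast at b2 b3 b4 b5
    refine ⟨b, ?_⟩
    rw [hv]; congr 1
    by_contra hne
    have c1 : P w 1 ((k : L) * z - y * th) := (P.of_eq b4).mono (by omega)
    have c2 : P w 1 ((k : L) * z + y * th) := (P.of_eq b3).mono (by omega)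
    have c3 := ((c2.add c1).congr (y := (z : L) * (2 * k)) (by ring)).of_mul_exact (exact_mul h2 hk)
    have c4 := ((c2.sub c1).congr (y := (y : L) * (2 * th)) (by ring)).of_mul_exact
      (exact_mul h2 ht)
    exact R13.cop hyz (by simpa using c4) (by simpa using c3)
  · exact ⟨0, by simpa using hv⟩
  · have b0 : w (-2 : L) = exp (-0) := by rw [Valuation.map_neg, h2]
    have b1 := exact_mul hv (exact_add b0 ((P.of_eq hv).mono (by omega)))
    rw [add_comm (-2 : L), ← hEe, vE, exp_inj] at b1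
    push_cast at b1
    exact ⟨-s, by rw [hv]; congr 1; omega⟩

end

section
variable {K : Type*} [Field K]

/-- changing the sign of `xi` -/
theorem xi_flip [CharZero K] {rho ka sig xi : K} (hs : sig ^ 2 = 1 + 2 * rho)
    (hxi : xi ^ 2 = 1 + 2 * (rho * ka ^ 2)) (hr : rho ≠ 0) (hka : ka ≠ 0)
    (h : IsSquare ((1 + xi) * (1 - sig))) : IsSquare ((1 + -xi) * (1 + sig)) := by
  obtain ⟨r, h⟩ := h
  have h1 : (1 + -xi) * (1 + sig) * (r * r) = (2 * rho * ka) ^ 2 := by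
    rw [← h]; linear_combination (sig ^ 2 - 1) * hxi + 2 * rho * ka ^ 2 * hs
  have h0 : r ≠ 0 := fun q => by
    rw [q, mul_zero, mul_zero] at h1
    exact pow_ne_zero 2 (mul_ne_zero (mul_ne_zero two_ne_zero hr) hka) h1.symm
  exact ⟨2 * rho * ka / r, by field_simp; linear_combination h1⟩

/-- the point on the curve `y ^ 2 = x (x ^ 2 - 2 D x - D ^ 2)` -/
theorem on_xi {G E xi dl r D : K} (hE2 : E ^ 2 = 1 + 3 * G ^ 2) (hxi : xi ^ 2 = 1 + E)
    (h0 : xi ≠ 0) (hD : D = 3 * dl * r ^ 2) (h : IsSquare ((1 + xi) * dl)) :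
    ∃ y : K, On (-2 * D) (-D ^ 2) (D * (1 + xi)) y := by
  obtain ⟨s, h⟩ := h
  refine ⟨3 * D * r * s * G / xi, ?_⟩
  unfold On
  rw [div_pow, div_eq_iff (pow_ne_zero 2 h0)]
  have h1 : (xi ^ 2 - 2) * xi ^ 2 = 3 * G ^ 2 := by rw [hxi]; linear_combination hE2
  linear_combination (-(D ^ 3 * (1 + xi))) * h1 - (3 * D ^ 2 * G ^ 2 * (1 + xi)) * hD
    - (9 * D ^ 2 * r ^ 2 * G ^ 2) * h

/-- divided differences along the chain `G, E, xi, x` -/
theorem dqx {G E xi D G0 E0 xi0 d : K} (hE : E ^ 2 = 1 + 3 * G ^ 2) (hE0 : E0 ^ 2 = 1 + 3 * G0 ^ 2)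
    (hxi : xi ^ 2 = 1 + E) (hxi0 : xi0 ^ 2 = 1 + E0) (hd : d ≠ 0) :
    (E + E0) * ((E - E0) / d) = 3 * ((G + G0) * ((G - G0) / d)) ∧
      (xi + xi0) * ((xi - xi0) / d) = (E - E0) / d ∧
      D * (1 + xi) - D * (1 + xi0) = d * (D * ((xi - xi0) / d)) :=
  ⟨dd_sq hd hE hE0 (by field_simp; ring), dd_sq hd hxi hxi0 (by field_simp; ring), by
    field_simp; ring⟩

end

end Pool.Agent.Lib.MP_ab8df0_nt.T
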